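import Pool.Agent.H37.CTT.Stmts
import Pool.Agent.H31.CTO.P33

/-!
# Row SC6 of the board `ctt`: no proper stable subspace contains `e_0` (case II)

The product of the `x_u`, `u ∈ U`, `u ≠ 0`, and the product of the `x_u`, `u ∉ U`, are fixed and
integral over `k[t]`, so in `k[t]`, and their product is `1`; so the first is a constant and has
order `0`.  With `n = |U ∩ e_0^⊥|` its order is a positive multiple of `q ^ 3 - n` if `U ⊄ e_0^⊥`.
-/

set_option autoImplicit false

namespace Pool.CND

open Finset Polynomial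

namespace SC6a

section

variable {F : Type} [Field F] [Fintype F] [Fintype (Fin 4 → F)] [DecidableEq F]

/-- the number of elements of `U` outside the hyperplane -/
theorem card_top (U : Submodule F (Fin 4 → F)) [DecidablePred fun u : Fin 4 → F => u ∈ U]
    (u₁ : Fin 4 → F) (h₁ : u₁ ∈ U) (h₂ : u₁ 3 ≠ 0) :
    (univ.filter fun u : Fin 4 → F => u ∈ U ∧ u 3 ≠ 0).card =
      (Fintype.card F - 1) * (univ.filter fun u : Fin 4 → F => u ∈ U ∧ u 3 = 0).card := by
  have h : (Fintype.card F - 1) = (univ.erase (0 : F)).card := by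
    rw [card_erase_of_mem (mem_univ _), card_univ]
  rw [h, ← card_product]
  symm
  refine card_nbij' (fun x => x.2 + x.1 • u₁)
    (fun u => (u 3 / u₁ 3, u - (u 3 / u₁ 3) • u₁)) ?_ ?_ ?_ ?_
  · rintro ⟨c, w⟩ hx
    simp only [coe_product, coe_erase, coe_univ, Set.mem_prod, Set.mem_sdiff, Set.mem_univ,
      Set.mem_singleton_iff, true_and, coe_filter, mem_univ, Set.mem_ofPred_eq] at hx ⊢
    obtain ⟨hc, hw, hw3⟩ := hx
    refine ⟨U.add_mem hw (U.smul_mem _ h₁), ?_⟩
    simp only [Pi.add_apply, Pi.smul_apply, smul_eq_mul, hw3, zero_add]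
    exact mul_ne_zero hc h₂
  · intro u hu
    simp only [coe_product, coe_erase, coe_univ, Set.mem_prod, Set.mem_sdiff, Set.mem_univ,
      Set.mem_singleton_iff, true_and, coe_filter, mem_univ, Set.mem_ofPred_eq] at hu ⊢
    refine ⟨div_ne_zero hu.2 h₂, U.sub_mem hu.1 (U.smul_mem _ h₁), ?_⟩
    simp only [Pi.sub_apply, Pi.smul_apply, smul_eq_mul]
    rw [div_mul_cancel₀ _ h₂, sub_self]
  · rintro ⟨c, w⟩ hx
    simp only [coe_product, coe_erase, coe_univ, Set.mem_prod, Set.mem_sdiff, Set.mem_univ,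
      Set.mem_singleton_iff, true_and, coe_filter, mem_univ, Set.mem_ofPred_eq] at hx
    obtain ⟨hc, hw, hw3⟩ := hx
    have h3 : (w + c • u₁) 3 / u₁ 3 = c := by
      simp only [Pi.add_apply, Pi.smul_apply, smul_eq_mul, hw3, zero_add]
      exact mul_div_cancel_right₀ c h₂
    simp only [h3, add_sub_cancel_right]
  · intro u hu
    simp

/-- the sum of a function with three values over `U` -/
theorem sum_val [DecidableEq (Fin 4 → F)] (U : Submodule F (Fin 4 → F)) [DecidablePred fun u : Fin 4 → F => u ∈ U]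
    (he0 : Pi.single 0 1 ∈ U) (u₁ : Fin 4 → F) (h₁ : u₁ ∈ U) (h₂ : u₁ 3 ≠ 0)
    (g : (Fin 4 → F) → ℤ) (a b c : ℤ)
    (ha : ∀ r : F, r ≠ 0 → g (Pi.single 0 r) = a)
    (hb : ∀ u : Fin 4 → F, u 3 = 0 → (u 1 ≠ 0 ∨ u 2 ≠ 0) → g u = b)
    (hc : ∀ u : Fin 4 → F, u 3 ≠ 0 → g u = c) :
    ∑ u ∈ univ.filter (fun u : Fin 4 → F => u ∈ U ∧ u ≠ 0), g u =
      ((Fintype.card F : ℤ) - 1) * a +
      (((univ.filter fun u : Fin 4 → F => u ∈ U ∧ u 3 = 0).card : ℤ) - Fintype.card F) * b +
      ((Fintype.card F : ℤ) - 1) *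
        ((univ.filter fun u : Fin 4 → F => u ∈ U ∧ u 3 = 0).card : ℤ) * c := by
  have hcardF : 1 ≤ Fintype.card F := Fintype.card_pos
  -- the line
  obtain ⟨L0, hL0⟩ : ∃ L0 : Finset (Fin 4 → F), L0 = univ.image (fun r : F => (Pi.single 0 r : Fin 4 → F)) :=
    ⟨_, rfl⟩
  have hinj : Function.Injective (fun r : F => (Pi.single 0 r : Fin 4 → F)) := by
    intro r s h
    have := congrFun h 0
    simpa using this
  have hcL : L0.card = Fintype.card F := by
    rw [hL0, card_image_of_injective _ hinj, card_univ]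
  have hmemL : ∀ u : Fin 4 → F, u ∈ L0 ↔ u 1 = 0 ∧ u 2 = 0 ∧ u 3 = 0 := by
    intro u
    rw [hL0, mem_image]
    constructor
    · rintro ⟨r, -, rfl⟩
      simp
    · rintro ⟨h1, h2, h3⟩
      refine ⟨u 0, mem_univ _, ?_⟩
      funext i
      fin_cases i
      · simp
      · simpa using h1.symm
      · simpa using h2.symm
      · simpa using h3.symm
  have hLU : ∀ u ∈ L0, u ∈ U := by
    intro u hu
    rw [hL0, mem_image] at hu
    obtain ⟨r, -, rfl⟩ := hu
    have : (Pi.single 0 r : Fin 4 → F) = r • (Pi.single 0 1 : Fin 4 → F) := by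
      rw [← Pi.single_smul, smul_eq_mul, mul_one]
    rw [this]
    exact U.smul_mem _ he0
  have h0L : (0 : Fin 4 → F) ∈ L0 := by
    rw [hmemL]
    simp
  obtain ⟨A, hA⟩ : ∃ A : Finset (Fin 4 → F), A = univ.filter fun u : Fin 4 → F => u ∈ U ∧ u 3 = 0 :=
    ⟨_, rfl⟩
  obtain ⟨B, hB⟩ : ∃ B : Finset (Fin 4 → F), B = univ.filter fun u : Fin 4 → F => u ∈ U ∧ u 3 ≠ 0 :=
    ⟨_, rfl⟩
  have hLA : L0 ⊆ A := by
    intro u hu
    rw [hA, mem_filter]
    exact ⟨mem_univ _, hLU u hu, ((hmemL u).1 hu).2.2⟩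
  have hcB : B.card = (Fintype.card F - 1) * A.card := by
    rw [hA, hB]
    exact card_top U u₁ h₁ h₂
  have hset : univ.filter (fun u : Fin 4 → F => u ∈ U ∧ u ≠ 0) = (L0.erase 0 ∪ (A \ L0)) ∪ B := by
    ext u
    simp only [mem_filter, mem_univ, true_and, mem_union, mem_erase, mem_sdiff, hA, hB]
    constructor
    · rintro ⟨hu, hu0⟩
      by_cases h3 : u 3 = 0
      · by_cases hl : u ∈ L0
        · exact Or.inl (Or.inl ⟨hu0, hl⟩)
        · exact Or.inl (Or.inr ⟨⟨hu, h3⟩, hl⟩)
      · exact Or.inr ⟨hu, h3⟩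
    · rintro ((⟨h0, hl⟩ | ⟨⟨hu, h3⟩, hl⟩) | ⟨hu, h3⟩)
      · exact ⟨hLU u hl, h0⟩
      · refine ⟨hu, ?_⟩
        rintro rfl
        exact hl h0L
      · refine ⟨hu, ?_⟩
        rintro rfl
        exact h3 rfl
  have hd1 : Disjoint (L0.erase 0) (A \ L0) := by
    rw [disjoint_left]
    intro u h1 h2
    exact (mem_sdiff.1 h2).2 (mem_of_mem_erase h1)
  have hd2 : Disjoint (L0.erase 0 ∪ (A \ L0)) B := by
    rw [disjoint_left]
    intro u h1 h2
    rw [hB, mem_filter] at h2
    rcases mem_union.1 h1 with h | h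
    · exact h2.2.2 ((hmemL u).1 (mem_of_mem_erase h)).2.2
    · have h3 := (mem_sdiff.1 h).1
      rw [hA, mem_filter] at h3
      exact h2.2.2 h3.2.2
  rw [hset, sum_union hd2, sum_union hd1]
  have e1 : ∑ u ∈ L0.erase 0, g u = ((Fintype.card F : ℤ) - 1) * a := by
    rw [sum_congr rfl (g := fun _ => a)]
    · rw [sum_const, card_erase_of_mem h0L, hcL, nsmul_eq_mul, Nat.cast_sub hcardF, Nat.cast_one]
    · intro u hu
      have h1 := mem_of_mem_erase hu
      have h2 := ne_of_mem_erase hu
      rw [hL0, mem_image] at h1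
      obtain ⟨r, -, rfl⟩ := h1
      apply ha
      rintro rfl
      exact h2 (Pi.single_zero 0)
  have e2 : ∑ u ∈ A \ L0, g u = ((A.card : ℤ) - Fintype.card F) * b := by
    rw [sum_congr rfl (g := fun _ => b)]
    · rw [sum_const, card_sdiff_of_subset hLA, hcL, nsmul_eq_mul, Nat.cast_sub (by
        rw [← hcL]
        exact card_le_card hLA)]
    · intro u hu
      obtain ⟨h1, h2⟩ := mem_sdiff.1 hu
      rw [hA, mem_filter] at h1
      apply hb u h1.2.2
      by_contra hcon
      push Not at hcon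
      exact h2 ((hmemL u).2 ⟨hcon.1, hcon.2, h1.2.2⟩)
  have e3 : ∑ u ∈ B, g u = ((Fintype.card F : ℤ) - 1) * (A.card : ℤ) * c := by
    rw [sum_congr rfl (g := fun _ => c)]
    · rw [sum_const, hcB, nsmul_eq_mul, Nat.cast_mul, Nat.cast_sub hcardF, Nat.cast_one]
    · intro u hu
      rw [hB, mem_filter] at hu
      exact hc u hu.2.2
  rw [e1, e2, e3, hA]

/-- the hyperplane has `q ^ 3` elements -/
theorem card_hyp [DecidablePred fun u : Fin 4 → F => u 3 = 0] :
    (univ.filter fun u : Fin 4 → F => u 3 = 0).card = Fintype.card F ^ 3 := by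
  have h : Fintype.card F ^ 3 = (univ : Finset (Fin 3 → F)).card := by
    rw [card_univ, Fintype.card_fun, Fintype.card_fin]
  rw [h]
  refine card_nbij' (fun u => ![u 0, u 1, u 2]) (fun v => ![v 0, v 1, v 2, 0]) ?_ ?_ ?_ ?_
  · intro u _
    simp
  · intro v _
    simp
  · intro u hu
    have h3 : u 3 = 0 := by simpa using hu
    funext i
    fin_cases i
    · simp
    · simp
    · simp
    · simpa using h3.symm
  · intro v _
    funext i
    fin_cases i <;> simp

end

end SC6a

open P33a SC6a in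
theorem sc6_thm : S_SC6 := by
  intro p k F L _ _ _ _ _ _ f q t X G₀ ρ P hp hp2 hchar hf hq hF hR hC hO U hU he0
  classical
  have hfin : Finite F := by
    apply Nat.finite_of_card_ne_zero
    rw [hF, hq]
    exact (pow_pos hp.pos f).ne'
  have := Fintype.ofFinite F
  have hp3 : 3 ≤ p := by
    have := hp.two_le
    omega
  have hq3 : 3 ≤ q := by
    rw [hq]
    calc 3 ≤ p := hp3
      _ = p ^ 1 := (pow_one p).symm
      _ ≤ p ^ f := Nat.pow_le_pow_right hp.pos hf
  have hqz : (3 : ℤ) ≤ (q : ℤ) := by exact_mod_cast hq3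
  have hcF : Fintype.card F = q := by rw [← hF, Nat.card_eq_fintype_card]
  have hchL : CharP L p := charP_of_injective_algebraMap (algebraMap k L).injective p
  have hcst : ∀ c : F, cst k F L c ^ q = cst k F L c := by
    intro c
    unfold cst
    rw [← map_pow, ← map_pow]
    congr 2
    rw [← hF, Nat.card_eq_fintype_card]
    exact FiniteField.pow_card c
  -- the coefficients
  obtain ⟨a, ha⟩ : ∃ a : Polynomial k, a = -(Polynomial.X ^ q) := ⟨_, rfl⟩
  obtain ⟨b, hb⟩ : ∃ b : Polynomial k, b = -Polynomial.X := ⟨_, rfl⟩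
  have haa : aeval t a = -(t ^ q) := by
    rw [ha]
    simp
  have hbb : aeval t b = -t := by
    rw [hb]
    simp
  have hrelX : ∀ i, X i ^ q ^ 4 + aeval t a * X i ^ q ^ 3 + aeval t b * X i ^ q +
      X i = 0 := by
    intro i
    rw [haa, hbb]
    linear_combination hR.rel i
  have hpow : ∀ m (u : Fin 4 → F), xv k X u ^ q ^ m =
      ∑ i, cst k F L (u i) * X i ^ q ^ m := by
    intro m u
    unfold xv
    rw [FN1.pow_sum hp hq]
    refine sum_congr rfl fun i _ => ?_
    rw [mul_pow, FN1.pow_cst (hcst (u i))]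
  have hrel : ∀ u : Fin 4 → F, xv k X u ^ q ^ 4 + aeval t a * xv k X u ^ q ^ 3 +
      aeval t b * xv k X u ^ q + xv k X u = 0 := by
    intro u
    have h1 := hpow 1 u
    simp only [pow_one] at h1
    rw [hpow 4, hpow 3, h1, mul_sum, mul_sum]
    unfold xv
    rw [← sum_add_distrib, ← sum_add_distrib, ← sum_add_distrib]
    refine sum_eq_zero fun i _ => ?_
    linear_combination (cst k F L (u i)) * hrelX i
  have h12 : q < q ^ 3 := by
    calc q = q ^ 1 := (pow_one q).symm
      _ < q ^ 3 := Nat.pow_lt_pow_right (by omega) (by omega)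
  have h23 : q ^ 3 < q ^ 4 := Nat.pow_lt_pow_right (by omega) (by omega)
  -- integrality
  have hint : ∀ u : Fin 4 → F,
      (aeval t : Polynomial k →ₐ[k] L).toRingHom.IsIntegralElem (xv k X u) := by
    intro u
    refine ⟨Polynomial.X ^ q ^ 4 + (C a * Polynomial.X ^ q ^ 3 +
      C b * Polynomial.X ^ q + Polynomial.X), ?_, ?_⟩
    · refine monic_X_pow_add ?_
      refine lt_of_le_of_lt (degree_add_le _ _) (max_lt ?_ ?_)
      · refine lt_of_le_of_lt (degree_add_le _ _) (max_lt ?_ ?_)
        · exact lt_of_le_of_lt (degree_C_mul_X_pow_le _ _) (by exact_mod_cast h23)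
        · exact lt_of_le_of_lt (degree_C_mul_X_pow_le _ _) (by exact_mod_cast h12.trans h23)
      · refine lt_of_le_of_lt degree_X_le ?_
        have h3 : 1 < q ^ 4 := by omega
        exact_mod_cast h3
    · have := hrel u
      simp only [eval₂_add, eval₂_mul, eval₂_pow, eval₂_X, eval₂_C]
      rw [← this]
      simp only [AlgHom.toRingHom_eq_coe, RingHom.coe_coe]
      ring
  -- products over stable sets
  have hmem : ∀ S : Finset (Fin 4 → F), (∀ g ∈ G₀, ∀ u ∈ S, g.1.mulVec u ∈ S) →
      ∃ R : Polynomial k, ∏ u ∈ S, xv k X u = aeval t R := by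
    intro S hS
    refine T33a.int_poly hR.tr ((hC.cov.fixed _).1 fun g => prod_fix hC S hS g) ?_
    let _ : Algebra (Polynomial k) L := (aeval t : Polynomial k →ₐ[k] L).toRingHom.toAlgebra
    have h : ∀ u ∈ S, IsIntegral (Polynomial k) (xv k X u) := fun u _ => hint u
    exact IsIntegral.prod _ h
  -- the product of the nonzero roots
  have hprod : ∏ u ∈ univ.erase (0 : Fin 4 → F), (-xv k X u) = 1 := by
    refine prod_roots (N := q ^ 4) (xv k X) (xv_inj hR.ind) ?_ 0 ?_
      (Polynomial.X ^ q ^ 4 + (C (aeval t a) * Polynomial.X ^ q ^ 3 +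
        C (aeval t b) * Polynomial.X ^ q + Polynomial.X)) ?_ ?_ ?_ ?_
    · rw [Fintype.card_fun, Fintype.card_fin, hcF]
    · unfold xv
      simp [cst]
    · refine monic_X_pow_add ?_
      refine lt_of_le_of_lt (degree_add_le _ _) (max_lt ?_ ?_)
      · refine lt_of_le_of_lt (degree_add_le _ _) (max_lt ?_ ?_)
        · exact lt_of_le_of_lt (degree_C_mul_X_pow_le _ _) (by exact_mod_cast h23)
        · exact lt_of_le_of_lt (degree_C_mul_X_pow_le _ _) (by exact_mod_cast h12.trans h23)
      · refine lt_of_le_of_lt degree_X_le ?_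
        have h3 : 1 < q ^ 4 := by omega
        exact_mod_cast h3
    · refine natDegree_eq_of_degree_eq_some ?_
      rw [degree_add_eq_left_of_degree_lt]
      · exact degree_X_pow _
      · rw [degree_X_pow]
        refine lt_of_le_of_lt (degree_add_le _ _) (max_lt ?_ ?_)
        · refine lt_of_le_of_lt (degree_add_le _ _) (max_lt ?_ ?_)
          · exact lt_of_le_of_lt (degree_C_mul_X_pow_le _ _) (by exact_mod_cast h23)
          · exact lt_of_le_of_lt (degree_C_mul_X_pow_le _ _) (by exact_mod_cast h12.trans h23)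
        · refine lt_of_le_of_lt degree_X_le ?_
          have h3 : 1 < q ^ 4 := by omega
          exact_mod_cast h3
    · simp only [coeff_add, coeff_C_mul, coeff_X_pow, coeff_X]
      rw [if_neg (by omega), if_neg (by omega), if_neg (by omega)]
      simp
    · intro u
      have := hrel u
      simp only [eval_add, eval_mul, eval_pow, eval_X, eval_C]
      rw [← this]
      ring
  have hprod2 : ∏ u ∈ univ.erase (0 : Fin 4 → F), xv k X u = 1 := by
    rw [← hprod]
    refine Finset.prod_nbij' (fun u => -u) (fun u => -u) ?_ ?_ ?_ ?_ ?_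
    · intro u hu
      simpa using hu
    · intro u hu
      simpa using hu
    · intro u _
      exact neg_neg u
    · intro u _
      exact neg_neg u
    · intro u _
      rw [xv_neg, neg_neg]
  -- the two sets
  have hinv : ∀ g ∈ G₀, ∀ u : Fin 4 → F,
      (g⁻¹).1.mulVec (g.1.mulVec u) = u := by
    intro g _ u
    have h : (g⁻¹).1 * g.1 = 1 := by
      have h1 : ((g⁻¹ * g) : Matrix.SpecialLinearGroup (Fin 4) F).1 = 1 := by
        rw [inv_mul_cancel]
        rfl
      exact h1
    rw [Matrix.mulVec_mulVec, h, Matrix.one_mulVec]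
  obtain ⟨R₁, hR₁⟩ := hmem (univ.filter fun u => u ∈ U ∧ u ≠ 0) (by
    intro g hg u hu
    simp only [mem_filter, mem_univ, true_and] at hu ⊢
    refine ⟨hU g hg u hu.1, fun h => hu.2 ?_⟩
    rw [← hinv g hg u, h, Matrix.mulVec_zero])
  obtain ⟨R₂, hR₂⟩ := hmem (univ.filter fun u => u ∉ U) (by
    intro g hg u hu
    simp only [mem_filter, mem_univ, true_and] at hu ⊢
    intro h
    apply hu
    rw [← hinv g hg u]
    exact hU g⁻¹ (G₀.inv_mem hg) _ h)
  have hmul : R₁ * R₂ = C 1 := by
    have hinj : Function.Injective (aeval t : Polynomial k →ₐ[k] L) :=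
      transcendental_iff_injective.1 hR.tr
    apply hinj
    rw [map_mul, ← hR₁, ← hR₂, C_1, map_one, ← hprod2, ← prod_union]
    · refine prod_congr ?_ fun _ _ => rfl
      ext u
      simp only [mem_union, mem_filter, mem_univ, true_and, mem_erase, and_true]
      constructor
      · rintro (h | h)
        · exact h.2
        · rintro rfl
          exact h U.zero_mem
      · intro h
        by_cases h1 : u ∈ U
        · exact Or.inl ⟨h1, h⟩
        · exact Or.inr h1
    · rw [disjoint_left]
      intro u h1 h2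
      simp only [mem_filter, mem_univ, true_and] at h1 h2
      exact h2 h1.1
  obtain ⟨σ, hσ, hσ2⟩ := T33a.unit_C (one_ne_zero) hmul
  have hord : P.ord (∏ u ∈ univ.filter (fun u : Fin 4 → F => u ∈ U ∧ u ≠ 0), xv k X u) = 0 := by
    rw [hR₁, hσ2, aeval_C]
    exact P.ord_const σ hσ
  rw [ord_prod P _ _ (fun u hu => xv_ne hR.ind (by
    simp only [mem_filter, mem_univ, true_and] at hu
    exact hu.2))] at hord
  -- the orders
  have hX0 : X 0 ≠ 0 := by
    have h1 := xv_ne hR.ind (u := (Pi.single 0 1 : Fin 4 → F)) (by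
      intro h
      have := congrFun h 0
      simp at this)
    intro h0
    apply h1
    unfold xv
    simp [Fin.sum_univ_four, cst, h0]
  have hline : ∀ r : F, r ≠ 0 → P.ord (xv k X (Pi.single 0 r)) = P.ord (X 0) := by
    intro r hr
    have h1 : xv k X (Pi.single 0 r) = cst k F L r * X 0 := by
      unfold xv
      simp [Fin.sum_univ_four, cst]
    have h2 : algebraMap F k r ≠ 0 := by
      intro h
      exact hr ((map_eq_zero (algebraMap F k)).1 h)
    have h3 : cst k F L r ≠ 0 := by
      unfold cst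
      exact (map_ne_zero (algebraMap k L)).2 h2
    rw [h1, P.ord_mul _ _ h3 hX0]
    have h4 : P.ord (cst k F L r) = 0 := P.ord_const _ h2
    rw [h4, zero_add]
  have hneg := hO.neg
  have hsm := hO.small
  by_cases hcase : ∃ u₁ ∈ U, u₁ 3 ≠ 0
  · obtain ⟨u₁, hu₁, hu₁3⟩ := hcase
    have hM : ((q : ℤ) ^ 2 * ((q : ℤ) - 1) * ((q : ℤ) + 1)) *
        ∑ u ∈ univ.filter (fun u : Fin 4 → F => u ∈ U ∧ u ≠ 0), P.ord (xv k X u) = 0 := by
      rw [hord, mul_zero]
    rw [mul_sum] at hM
    rw [sum_val U he0 u₁ hu₁ hu₁3 _ ((q : ℤ) ^ 2 * ((q : ℤ) + 1) * (-P.ord t))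
      ((q : ℤ) * ((q : ℤ) - 1) * (-P.ord t)) (((q : ℤ) + 1) * P.ord t) ?_ ?_ ?_, hcF] at hM
    · obtain ⟨n, hn⟩ : ∃ n : ℕ, n = (univ.filter fun u : Fin 4 → F => u ∈ U ∧ u 3 = 0).card :=
        ⟨_, rfl⟩
      rw [← hn] at hM
      have h1 : ((q : ℤ) - 1) * (-P.ord t) * ((q : ℤ) ^ 3 - n) = 0 := by
        linear_combination hM
      have h2 : (q : ℤ) ^ 3 - n = 0 := by
        rcases mul_eq_zero.1 h1 with h | h
        · exfalso
          have h3 : 0 < ((q : ℤ) - 1) * (-P.ord t) := mul_pos (by linarith) (by linarith)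
          linarith
        · exact h
      have h3 : n = q ^ 3 := by
        have : (n : ℤ) = ((q ^ 3 : ℕ) : ℤ) := by
          push_cast
          linarith
        exact_mod_cast this
      have h4 : (univ.filter fun u : Fin 4 → F => u ∈ U ∧ u 3 = 0) =
          univ.filter fun u : Fin 4 → F => u 3 = 0 := by
        refine eq_of_subset_of_card_le ?_ ?_
        · intro u hu
          simp only [mem_filter, mem_univ, true_and] at hu ⊢
          exact hu.2
        · rw [card_hyp, hcF, ← h3, hn]
      rw [eq_top_iff]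
      intro u _
      have h5 : u - (u 3 / u₁ 3) • u₁ ∈ univ.filter fun u : Fin 4 → F => u 3 = 0 := by
        simp only [mem_filter, mem_univ, true_and, Pi.sub_apply, Pi.smul_apply, smul_eq_mul]
        rw [div_mul_cancel₀ _ hu₁3, sub_self]
      rw [← h4] at h5
      simp only [mem_filter, mem_univ, true_and] at h5
      have h6 := U.add_mem h5.1 (U.smul_mem (u 3 / u₁ 3) hu₁)
      rwa [sub_add_cancel] at h6
    · intro r hr
      show _ * P.ord (xv k X (Pi.single 0 r)) = _
      rw [hline r hr]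
      linear_combination ((q : ℤ) ^ 2 * ((q : ℤ) + 1)) * hsm
    · intro u hu3 hu
      have h := hO.mid u hu3 hu
      show _ * P.ord (xv k X u) = _
      unfold xv
      linear_combination ((q : ℤ) * ((q : ℤ) - 1)) * h
    · intro u hu
      have h := hO.top u hu
      show _ * P.ord (xv k X u) = _
      unfold xv
      linear_combination ((q : ℤ) + 1) * h
  · exfalso
    push Not at hcase
    have hpos : 0 < ∑ u ∈ univ.filter (fun u : Fin 4 → F => u ∈ U ∧ u ≠ 0), P.ord (xv k X u) := by
      refine sum_pos ?_ ⟨Pi.single 0 1, ?_⟩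
      · intro u hu
        simp only [mem_filter, mem_univ, true_and] at hu
        have h3 := hcase u hu.1
        by_cases hu12 : u 1 ≠ 0 ∨ u 2 ≠ 0
        · have h : (q : ℤ) * ((q : ℤ) + 1) * P.ord (xv k X u) = -P.ord t := hO.mid u h3 hu12
          by_contra hcon
          rw [not_lt] at hcon
          have h4 : (q : ℤ) * ((q : ℤ) + 1) * P.ord (xv k X u) ≤ 0 :=
            mul_nonpos_of_nonneg_of_nonpos (mul_nonneg (by linarith) (by linarith)) hcon
          linarith
        · push Not at hu12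
          have h0 : u 0 ≠ 0 := by
            intro h0
            apply hu.2
            funext i
            fin_cases i
            · exact h0
            · exact hu12.1
            · exact hu12.2
            · exact h3
          have h5 : u = Pi.single 0 (u 0) := by
            funext i
            fin_cases i
            · simp
            · simpa using hu12.1
            · simpa using hu12.2
            · simpa using h3
          rw [h5, hline _ h0]
          by_contra hcon
          rw [not_lt] at hcon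
          have h4 : ((q : ℤ) - 1) * P.ord (X 0) ≤ 0 :=
            mul_nonpos_of_nonneg_of_nonpos (by linarith) hcon
          linarith
      · simp only [mem_filter, mem_univ, true_and]
        refine ⟨he0, ?_⟩
        intro h
        have := congrFun h 0
        simp at this
    rw [hord] at hpos
    exact lt_irrefl _ hpos

end Pool.CND
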